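import Pool.Agent.TH931.LP.Stm

/-!
# Common lemmas for LP931-B4 and LP931-B5
-/

set_option autoImplicit false
set_option linter.unusedVariables false

open MeasureTheory Set Filter Topology
open scoped ENNReal Matrix

namespace Pool.Agent.TH365.LP931

open Pool.Agent.TH931.LP

section frames

variable {n : ℕ} {U V : Type} {F : Fr n U V}

theorem h_le (hF : Good F) (b : V) (y : Fin n → ℝ) : F.v b ⬝ᵥ y ≤ F.h y := hF.dhalf.le b y

theorem h_eq (hF : Good F) (y : Fin n → ℝ) : F.v (F.vt y) ⬝ᵥ y = F.h y := hF.dhalf.eq y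

theorem vt_smul (hF : Good F) {t : ℝ} (ht : 0 < t) (y : Fin n → ℝ) : F.vt (t • y) = F.vt y :=
  hF.dhalf.smul t ht y

theorem meas_vt (hF : Good F) (b : V) : MeasurableSet {y | F.vt y = b} := hF.dhalf.meas b

theorem h_smul (hF : Good F) {t : ℝ} (ht : 0 < t) (y : Fin n → ℝ) :
    F.h (t • y) = t * F.h y := by
  rw [← h_eq hF, vt_smul hF ht, dotProduct_smul, h_eq hF, smul_eq_mul]

theorem h_zero (hF : Good F) : F.h 0 = 0 := by
  rw [← h_eq hF, dotProduct_zero]

theorem h_pos (hF : Good F) {y : Fin n → ℝ} (hy : y ≠ 0) : 0 < F.h y := hF.dhalf.pos y hy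

theorem h_nonneg (hF : Good F) (y : Fin n → ℝ) : 0 ≤ F.h y := by
  by_cases hy : y = 0
  · rw [hy, h_zero hF]
  · exact (h_pos hF hy).le

theorem h_meas [Fintype V] (hF : Good F) : Measurable F.h := by
  classical
  have e : F.h = fun y => ∑ b, ({y | F.vt y = b}.indicator (fun y => F.v b ⬝ᵥ y)) y := by
    funext y
    rw [Finset.sum_eq_single (F.vt y)]
    · rw [Set.indicator_of_mem (show y ∈ {y' | F.vt y' = F.vt y} from rfl), h_eq hF]
    · intro b _ hb
      exact Set.indicator_of_notMem (fun h : y ∈ {y' | F.vt y' = b} => hb h.symm) _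
    · intro h; exact absurd (Finset.mem_univ _) h
  rw [e]
  refine Finset.measurable_sum _ fun b _ => Measurable.indicator ?_ (meas_vt hF b)
  have : Continuous fun y : Fin n → ℝ => F.v b ⬝ᵥ y :=
    Continuous.dotProduct continuous_const continuous_id
  exact this.measurable

theorem pol_real_pos (hF : Good F) : 0 < volume.real F.pol := by
  have h := hF.vol
  have h1 : (0 : ℝ) < 4 ^ n / n.factorial := by positivity
  rw [← h] at h1
  by_contra hcon
  have h2 : volume.real F.pol = 0 := le_antisymm (not_lt.1 hcon) measureReal_nonneg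
  rw [h2, mul_zero] at h1
  exact lt_irrefl _ h1

theorem pol_ne_top (hF : Good F) : volume F.pol ≠ ∞ := by
  intro h
  have := pol_real_pos hF
  rw [measureReal_def, h] at this
  simp at this

theorem pol_ne_zero (hF : Good F) : volume F.pol ≠ 0 := by
  intro h
  have := pol_real_pos hF
  rw [measureReal_def, h] at this
  simp at this

theorem pol_ofReal (hF : Good F) : ENNReal.ofReal (volume.real F.pol) = volume F.pol := by
  rw [measureReal_def, ENNReal.ofReal_toReal (pol_ne_top hF)]

theorem meas_pol [Fintype V] (hF : Good F) : MeasurableSet F.pol :=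
  measurableSet_le (h_meas hF) measurable_const

/-- the radial formula for the frame -/
theorem rad [Fintype V] (h2 : S_rad) (hF : Good F) (f : (Fin n → ℝ) → ℝ≥0∞) (hf : Measurable f)
    (hfh : ∀ t : ℝ, 0 < t → ∀ y, f (t • y) = f y) (Φ : ℝ → ℝ≥0∞) (hΦ : Measurable Φ) :
    ∫⁻ y, Φ (F.h y) * f y =
      (∫⁻ r in Ioi (0 : ℝ), ENNReal.ofReal (n * r ^ (n - 1)) * Φ r) * ∫⁻ y in F.pol, f y :=
  h2 n F.h hF.n_pos (h_meas hF) (h_nonneg hF) (fun t ht y => h_smul hF ht y) (pol_ne_top hF)
    f hf hfh Φ hΦ

theorem map_h [Fintype V] (h2 : S_rad) (hF : Good F) :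
    Measure.map F.h volume = (volume F.pol) •
      ((volume.restrict (Ioi (0 : ℝ))).withDensity (fun r => ENNReal.ofReal (n * r ^ (n - 1)))) := by
  refine Measure.ext_of_lintegral _ fun Φ hΦ => ?_
  have hd : Measurable fun r : ℝ => ENNReal.ofReal (n * r ^ (n - 1)) := by fun_prop
  rw [lintegral_map hΦ (h_meas hF), lintegral_smul_measure,
    lintegral_withDensity_eq_lintegral_mul _ hd hΦ]
  have h := rad h2 hF (fun _ => 1) measurable_const (fun _ _ _ => rfl) Φ hΦ
  simp only [mul_one, lintegral_const, Measure.restrict_apply MeasurableSet.univ, univ_inter,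
    one_mul] at h
  rw [h, mul_comm]
  rfl

theorem integrable_comp_h [Fintype V] (h2 : S_rad) (hF : Good F) (g : ℝ → ℝ) (hg : Measurable g)
    (hi : IntegrableOn (fun r => (n * r ^ (n - 1)) * g r) (Ioi (0 : ℝ))) :
    Integrable (fun y => g (F.h y)) := by
  have h1 : Integrable g (Measure.map F.h volume) := by
    rw [map_h h2 hF]
    refine Integrable.smul_measure ?_ (pol_ne_top hF)
    have hd : Measurable fun r : ℝ => ENNReal.ofReal (n * r ^ (n - 1)) := by fun_prop
    rw [integrable_withDensity_iff_integrable_smul' hd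
      (Eventually.of_forall fun _ => ENNReal.ofReal_lt_top)]
    refine (integrable_congr ?_).1 hi
    filter_upwards [ae_restrict_mem measurableSet_Ioi] with r hr
    have hr' : 0 < r := hr
    rw [ENNReal.toReal_ofReal (by positivity), smul_eq_mul]
  exact (integrable_map_measure hg.aestronglyMeasurable (h_meas hF).aemeasurable).1 h1

theorem integral_comp_h [Fintype V] (h2 : S_rad) (hF : Good F) (g : ℝ → ℝ) (hg : Measurable g) :
    ∫ y, g (F.h y) = volume.real F.pol * ∫ r in Ioi (0 : ℝ), (n * r ^ (n - 1)) * g r := by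
  rw [← integral_map (h_meas hF).aemeasurable hg.aestronglyMeasurable, map_h h2 hF,
    integral_smul_measure]
  have hd : Measurable fun r : ℝ => ENNReal.ofReal (n * r ^ (n - 1)) := by fun_prop
  rw [integral_withDensity_eq_integral_toReal_smul hd
    (Eventually.of_forall fun _ => ENNReal.ofReal_lt_top)]
  rw [measureReal_def, smul_eq_mul]
  congr 1
  refine setIntegral_congr_fun measurableSet_Ioi fun r hr => ?_
  have hr' : 0 < r := hr
  show (ENNReal.ofReal (n * r ^ (n - 1))).toReal • g r = _
  rw [ENNReal.toReal_ofReal (by positivity), smul_eq_mul]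

end frames

/-! ### Gamma integrals -/

theorem gam_int (k : ℕ) : IntegrableOn (fun r : ℝ => r ^ k * Real.exp (-r)) (Ioi 0) := by
  have h := Real.GammaIntegral_convergent (s := k + 1) (by positivity)
  refine h.congr_fun (fun r hr => ?_) measurableSet_Ioi
  show Real.exp (-r) * r ^ ((k : ℝ) + 1 - 1) = _
  rw [add_sub_cancel_right, Real.rpow_natCast, mul_comm]

theorem gam_val (k : ℕ) : ∫ r in Ioi (0 : ℝ), r ^ k * Real.exp (-r) = k.factorial := by
  rw [← Real.Gamma_nat_eq_factorial, Real.Gamma_eq_integral (by positivity)]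
  refine setIntegral_congr_fun measurableSet_Ioi fun r _ => ?_
  show _ = Real.exp (-r) * r ^ ((k : ℝ) + 1 - 1)
  rw [add_sub_cancel_right, Real.rpow_natCast, mul_comm]

open Complex in
theorem log_cint (k : ℕ) : IntegrableOn (fun t : ℝ => ((t ^ k * (Real.log t * Real.exp (-t)) : ℝ) : ℂ))
    (Ioi 0) := by
  have hs : 0 < ((k : ℂ) + 1).re := by simp; positivity
  have h := (mellin_hasDerivAt_of_isBigO_rpow (E := ℂ) (f := fun x : ℝ => ((Real.exp (-x) : ℝ) : ℂ))
    (a := ((k : ℂ) + 1).re + 1) (b := 0) (s := (k : ℂ) + 1) ?_ ?_ (lt_add_one _) ?_ hs).1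
  · unfold MellinConvergent at h
    refine h.congr_fun (fun t ht => ?_) measurableSet_Ioi
    have ht' : 0 < t := ht
    show (t : ℂ) ^ ((k : ℂ) + 1 - 1) • (Real.log t • ((Real.exp (-t) : ℝ) : ℂ)) = _
    rw [add_sub_cancel_right, Complex.cpow_natCast, Complex.real_smul, smul_eq_mul]
    push_cast
    ring
  · refine (Continuous.continuousOn ?_).locallyIntegrableOn measurableSet_Ioi
    exact Complex.continuous_ofReal.comp (Real.continuous_exp.comp continuous_neg)
  · rw [← Asymptotics.isBigO_norm_left]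
    simp_rw [Complex.norm_real, Asymptotics.isBigO_norm_left]
    simpa only [neg_one_mul] using (isLittleO_exp_neg_mul_rpow_atTop zero_lt_one _).isBigO
  · simp_rw [neg_zero, Real.rpow_zero]
    refine Asymptotics.isBigO_const_of_tendsto (?_ : Tendsto _ _ (𝓝 (1 : ℂ))) one_ne_zero
    rw [(by simp : (1 : ℂ) = Real.exp (-0))]
    exact (Complex.continuous_ofReal.comp
      (Real.continuous_exp.comp continuous_neg)).continuousWithinAt

theorem log_int (k : ℕ) : IntegrableOn (fun t : ℝ => t ^ k * (Real.log t * Real.exp (-t)))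
    (Ioi 0) := by
  have h := (log_cint k).re
  exact h

theorem log_val (k : ℕ) : ∫ t in Ioi (0 : ℝ), t ^ k * (Real.log t * Real.exp (-t)) =
    k.factorial * (HH k - Real.eulerMascheroniConstant) := by
  have hs : 0 < ((k : ℂ) + 1).re := by simp; positivity
  have h1 := Complex.hasDerivAt_GammaIntegral hs
  have h2 := Complex.hasDerivAt_Gamma_nat k
  have h3 : HasDerivAt Complex.Gamma
      (∫ t : ℝ in Ioi 0, (t : ℂ) ^ ((k : ℂ) + 1 - 1) * (Real.log t * Real.exp (-t))) (k + 1) := by
    refine h1.congr_of_eventuallyEq ?_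
    have : IsOpen {s : ℂ | 0 < s.re} := Complex.continuous_re.isOpen_preimage _ isOpen_Ioi
    filter_upwards [this.mem_nhds hs] with a ha using Complex.Gamma_eq_integral ha
  have h4 := h3.unique h2
  have h5 : (∫ t : ℝ in Ioi 0, (t : ℂ) ^ ((k : ℂ) + 1 - 1) * (Real.log t * Real.exp (-t))) =
      ∫ t : ℝ in Ioi 0, ((t ^ k * (Real.log t * Real.exp (-t)) : ℝ) : ℂ) := by
    refine setIntegral_congr_fun measurableSet_Ioi fun t _ => ?_
    show (t : ℂ) ^ ((k : ℂ) + 1 - 1) * _ = _
    rw [add_sub_cancel_right, Complex.cpow_natCast]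
    push_cast
    ring
  rw [h5, integral_complex_ofReal] at h4
  have h6 : (harmonic k : ℝ) = HH k := by
    unfold harmonic HH
    push_cast
    refine Finset.sum_congr rfl fun i _ => ?_
    rw [one_div]
  have h7 : ((k.factorial * (HH k - Real.eulerMascheroniConstant) : ℝ) : ℂ) =
      (k.factorial : ℂ) * (-Real.eulerMascheroniConstant + harmonic k) := by
    rw [← h6]
    push_cast
    ring
  rw [← h7] at h4
  exact_mod_cast h4

end Pool.Agent.TH365.LP931
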