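import Pool.Agent.TH931.LP.StmB
import Pool.Agent.TH365.LP931.Base

/-!
# LP931-B4 (job 2428): means with respect to `exp (-h)`
-/

set_option autoImplicit false
set_option linter.unusedVariables false

open MeasureTheory Set Filter Topology
open scoped ENNReal Matrix

namespace Pool.Agent.TH365.LP931

open Pool.Agent.TH931.LP

section frames

variable {n : ℕ} {U V : Type} {F : Fr n U V}

theorem fact_pred (hF : Good F) : (n : ℝ) * (n - 1).factorial = n.factorial := by
  exact_mod_cast Nat.mul_factorial_pred hF.n_pos.ne'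

theorem pow_pred (hF : Good F) (r : ℝ) : r ^ (n - 1) * r = r ^ n := by
  rw [← pow_succ, Nat.sub_add_cancel hF.n_pos]

theorem exp_int [Fintype V] (h2 : S_rad) (hF : Good F) :
    Integrable (fun y => Real.exp (-F.h y)) ∧
      ∫ y, Real.exp (-F.h y) = n.factorial * volume.real F.pol := by
  have hm : Measurable fun r : ℝ => Real.exp (-r) := by fun_prop
  constructor
  · apply integrable_comp_h h2 hF (fun r => Real.exp (-r)) hm
    have : IntegrableOn (fun r : ℝ => (n : ℝ) * (r ^ (n - 1) * Real.exp (-r))) (Ioi 0) :=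
      (gam_int (n - 1)).const_mul (n : ℝ)
    refine this.congr_fun (fun r _ => ?_) measurableSet_Ioi
    show (n : ℝ) * (r ^ (n - 1) * Real.exp (-r)) = n * r ^ (n - 1) * Real.exp (-r)
    ring
  · rw [integral_comp_h h2 hF (fun r => Real.exp (-r)) hm]
    have e : ∀ r : ℝ, (n : ℝ) * r ^ (n - 1) * Real.exp (-r) =
        n * (r ^ (n - 1) * Real.exp (-r)) := by intro r; ring
    simp only [e]
    rw [integral_const_mul, gam_val, fact_pred hF, mul_comm]

theorem h_exp_int [Fintype V] (h2 : S_rad) (hF : Good F) :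
    Integrable (fun y => F.h y * Real.exp (-F.h y)) := by
  have hm : Measurable fun r : ℝ => r * Real.exp (-r) := by fun_prop
  apply integrable_comp_h h2 hF (fun r => r * Real.exp (-r)) hm
  have : IntegrableOn (fun r : ℝ => (n : ℝ) * (r ^ n * Real.exp (-r))) (Ioi 0) :=
    (gam_int n).const_mul (n : ℝ)
  refine this.congr_fun (fun r _ => ?_) measurableSet_Ioi
  show (n : ℝ) * (r ^ n * Real.exp (-r)) = n * r ^ (n - 1) * (r * Real.exp (-r))
  rw [← pow_pred hF]
  ring

theorem log_exp_int [Fintype V] (h2 : S_rad) (hF : Good F) :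
    Integrable (fun y => Real.log (F.h y) * Real.exp (-F.h y)) ∧
      ∫ y, Real.log (F.h y) * Real.exp (-F.h y) =
        (HH (n - 1) - Real.eulerMascheroniConstant) * (n.factorial * volume.real F.pol) := by
  have hm : Measurable fun r : ℝ => Real.log r * Real.exp (-r) := by fun_prop
  constructor
  · apply integrable_comp_h h2 hF (fun r => Real.log r * Real.exp (-r)) hm
    have : IntegrableOn (fun r : ℝ => (n : ℝ) * (r ^ (n - 1) * (Real.log r * Real.exp (-r))))
        (Ioi 0) := (log_int (n - 1)).const_mul (n : ℝ)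
    refine this.congr_fun (fun r _ => ?_) measurableSet_Ioi
    show (n : ℝ) * (r ^ (n - 1) * (Real.log r * Real.exp (-r))) =
      n * r ^ (n - 1) * (Real.log r * Real.exp (-r))
    ring
  · rw [integral_comp_h h2 hF (fun r => Real.log r * Real.exp (-r)) hm]
    have e : ∀ r : ℝ, (n : ℝ) * r ^ (n - 1) * (Real.log r * Real.exp (-r)) =
        n * (r ^ (n - 1) * (Real.log r * Real.exp (-r))) := by intro r; ring
    simp only [e]
    rw [integral_const_mul, log_val, ← fact_pred hF]
    ring

/-- a nonnegative measurable function with finite integral -/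
theorem of_lint {f : (Fin n → ℝ) → ℝ} (hf : Measurable f) (h0 : ∀ᵐ y, 0 ≤ f y) {c : ℝ}
    (hc : 0 ≤ c) (h : ∫⁻ y, ENNReal.ofReal (f y) = ENNReal.ofReal c) :
    Integrable f ∧ ∫ y, f y = c := by
  constructor
  · rw [← lintegral_ofReal_ne_top_iff_integrable hf.aestronglyMeasurable h0, h]
    exact ENNReal.ofReal_ne_top
  · rw [integral_eq_lintegral_of_nonneg_ae h0 hf.aestronglyMeasurable, h,
      ENNReal.toReal_ofReal hc]

theorem mu_zero [Fintype U] (hF : Good F) {α : U → V → ℝ} {mu : (Fin n → ℝ) → U → ℝ}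
    (hmu : Ker F α mu) (a : U) : mu 0 a = 0 := by
  have h := hmu.smul 2 (by norm_num) 0 a
  rw [smul_zero] at h
  linarith

/-- the integral of the kernel over a normal cone -/
theorem mu_int [Fintype U] [Fintype V] (h2 : S_rad) (hF : Good F) {α : U → V → ℝ}
    {mu : (Fin n → ℝ) → U → ℝ} (hmu : Ker F α mu) (a : U) (b : V) :
    Integrable (fun y => {y | F.vt y = b}.indicator (fun y => mu y a) y * Real.exp (-F.h y)) ∧
    ∫ y, {y | F.vt y = b}.indicator (fun y => mu y a) y * Real.exp (-F.h y) =
      n * α a b * (n.factorial * volume.real F.pol) := by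
  have hn : (0 : ℝ) < n := by exact_mod_cast hF.n_pos
  set I : (Fin n → ℝ) → ℝ := {y | F.vt y = b}.indicator (fun y => mu y a) with hI
  have hIm : Measurable I := (hmu.meas a).indicator (meas_vt hF b)
  have hI0 : ∀ y, 0 ≤ I y := fun y => Set.indicator_nonneg (fun y _ => hmu.nonneg y a) y
  have hIs : ∀ t : ℝ, 0 < t → ∀ y, I (t • y) = t * I y := by
    intro t ht y
    rw [hI]
    by_cases hy : F.vt y = b
    · have hy' : F.vt (t • y) = b := by rw [vt_smul hF ht]; exact hy
      rw [Set.indicator_of_mem (show t • y ∈ {y | F.vt y = b} from hy'),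
        Set.indicator_of_mem (show y ∈ {y | F.vt y = b} from hy)]
      exact hmu.smul t ht y a
    · have hy' : ¬ F.vt (t • y) = b := by rw [vt_smul hF ht]; exact hy
      rw [Set.indicator_of_notMem (show t • y ∉ {y | F.vt y = b} from hy'),
        Set.indicator_of_notMem (show y ∉ {y | F.vt y = b} from hy), mul_zero]
  have hIz : I 0 = 0 := by
    rw [hI]
    by_cases hy : (0 : Fin n → ℝ) ∈ {y | F.vt y = b}
    · rw [Set.indicator_of_mem hy, mu_zero hF hmu]
    · rw [Set.indicator_of_notMem hy]
  set f : (Fin n → ℝ) → ℝ≥0∞ := fun y => ENNReal.ofReal (I y / F.h y) with hf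
  have hfm : Measurable f := (hIm.div (h_meas hF)).ennreal_ofReal
  have hfs : ∀ t : ℝ, 0 < t → ∀ y, f (t • y) = f y := by
    intro t ht y
    rw [hf]
    simp only
    rw [hIs t ht, h_smul hF ht, mul_div_mul_left _ _ ht.ne']
  have hprod : ∀ y, F.h y * (I y / F.h y) = I y := by
    intro y
    by_cases hy : y = 0
    · rw [hy, h_zero hF, hIz, zero_mul]
    · have := (h_pos hF hy).ne'
      field_simp
  -- the integral over the polar
  have hX : ∫⁻ y in F.pol, f y = ENNReal.ofReal (α a b) * volume F.pol := by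
    have h3 := rad h2 hF f hfm hfs (Set.indicator (Iic 1) fun r => ENNReal.ofReal r)
      ((ENNReal.measurable_ofReal).indicator measurableSet_Iic)
    have h4 : ∫⁻ y, (Set.indicator (Iic 1) (fun r => ENNReal.ofReal r)) (F.h y) * f y =
        ENNReal.ofReal ((n : ℝ) / (n + 1) * α a b) * volume F.pol := by
      rw [← hmu.law a b]
      have hset : {y | F.h y ≤ 1 ∧ F.vt y = b} = {y | F.h y ≤ 1} ∩ {y | F.vt y = b} := rfl
      have hmp : MeasurableSet {y | F.h y ≤ 1} := meas_pol hF
      rw [hset, ← lintegral_indicator (hmp.inter (meas_vt hF b))]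
      refine lintegral_congr fun y => ?_
      by_cases h1 : F.h y ≤ 1
      · rw [Set.indicator_of_mem (show F.h y ∈ Iic 1 from h1), hf]
        simp only
        rw [← ENNReal.ofReal_mul (h_nonneg hF y), hprod]
        by_cases hy : F.vt y = b
        · rw [Set.indicator_of_mem (show y ∈ {y | F.h y ≤ 1} ∩ {y | F.vt y = b} from ⟨h1, hy⟩),
            hI, Set.indicator_of_mem (show y ∈ {y | F.vt y = b} from hy)]
        · rw [Set.indicator_of_notMem (show y ∉ {y | F.h y ≤ 1} ∩ {y | F.vt y = b} from
            fun h => hy h.2), hI, Set.indicator_of_notMem (show y ∉ {y | F.vt y = b} from hy),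
            ENNReal.ofReal_zero]
      · rw [Set.indicator_of_notMem (show F.h y ∉ Iic 1 from h1), zero_mul,
          Set.indicator_of_notMem (show y ∉ {y | F.h y ≤ 1} ∩ {y | F.vt y = b} from
            fun h => h1 h.1)]
    have h5 : ∫⁻ r in Ioi (0 : ℝ), ENNReal.ofReal (n * r ^ (n - 1)) *
        (Set.indicator (Iic 1) fun r => ENNReal.ofReal r) r = ENNReal.ofReal ((n : ℝ) / (n + 1)) := by
      have e1 : ∀ r : ℝ, ENNReal.ofReal (n * r ^ (n - 1)) *
          (Set.indicator (Iic 1) fun r => ENNReal.ofReal r) r =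
          (Set.indicator (Iic 1) fun r => ENNReal.ofReal (n * r ^ (n - 1)) * ENNReal.ofReal r) r := by
        intro r
        by_cases hr : r ∈ Iic (1 : ℝ)
        · rw [Set.indicator_of_mem hr, Set.indicator_of_mem hr]
        · rw [Set.indicator_of_notMem hr, Set.indicator_of_notMem hr, mul_zero]
      simp only [e1]
      rw [lintegral_indicator measurableSet_Iic, Measure.restrict_restrict measurableSet_Iic]
      have e2 : Iic (1 : ℝ) ∩ Ioi 0 = Ioc 0 1 := by ext r; simp [and_comm]
      rw [e2]
      have e3 : ∀ r ∈ Ioc (0 : ℝ) 1, ENNReal.ofReal (n * r ^ (n - 1)) * ENNReal.ofReal r =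
          ENNReal.ofReal (n * r ^ n) := by
        intro r hr
        have hr0 : 0 < r := hr.1
        rw [← ENNReal.ofReal_mul (by positivity), ← pow_pred hF r, mul_assoc]
      rw [setLIntegral_congr_fun measurableSet_Ioc e3,
        ← ofReal_integral_eq_lintegral_ofReal]
      · congr 1
        rw [← intervalIntegral.integral_of_le zero_le_one, intervalIntegral.integral_const_mul,
          integral_pow]
        simp
        field_simp
      · have : Continuous fun r : ℝ => (n : ℝ) * r ^ n := by fun_prop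
        exact (this.integrableOn_Icc (a := 0) (b := 1)).mono_set Ioc_subset_Icc_self
      · filter_upwards [ae_restrict_mem measurableSet_Ioc] with r hr
        have hr0 : 0 < r := hr.1
        positivity
    rw [h4, h5] at h3
    have h6 : ENNReal.ofReal ((n : ℝ) / (n + 1) * α a b) =
        ENNReal.ofReal ((n : ℝ) / (n + 1)) * ENNReal.ofReal (α a b) :=
      ENNReal.ofReal_mul (by positivity)
    rw [h6, mul_assoc] at h3
    have h7 : ENNReal.ofReal ((n : ℝ) / (n + 1)) ≠ 0 := by
      rw [Ne, ENNReal.ofReal_eq_zero, not_le]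
      positivity
    exact ((ENNReal.mul_right_inj h7 ENNReal.ofReal_ne_top).1 h3).symm
  -- the integral against `exp (-h)`
  have hmain : ∫⁻ y, ENNReal.ofReal (I y * Real.exp (-F.h y)) =
      ENNReal.ofReal (n * α a b * (n.factorial * volume.real F.pol)) := by
    have hm : Measurable fun r : ℝ => ENNReal.ofReal (r * Real.exp (-r)) := by fun_prop
    have h3 := rad h2 hF f hfm hfs (fun r => ENNReal.ofReal (r * Real.exp (-r))) hm
    have h4 : ∀ y, ENNReal.ofReal (F.h y * Real.exp (-F.h y)) * f y =
        ENNReal.ofReal (I y * Real.exp (-F.h y)) := by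
      intro y
      rw [hf]
      simp only
      rw [← ENNReal.ofReal_mul (mul_nonneg (h_nonneg hF y) (Real.exp_pos _).le)]
      congr 1
      calc F.h y * Real.exp (-F.h y) * (I y / F.h y) =
          (F.h y * (I y / F.h y)) * Real.exp (-F.h y) := by ring
        _ = _ := by rw [hprod]
    simp only [h4] at h3
    rw [h3, hX]
    have h5 : ∫⁻ r in Ioi (0 : ℝ), ENNReal.ofReal (n * r ^ (n - 1)) *
        ENNReal.ofReal (r * Real.exp (-r)) = ENNReal.ofReal (n * n.factorial) := by
      have e3 : ∀ r ∈ Ioi (0 : ℝ), ENNReal.ofReal (n * r ^ (n - 1)) *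
          ENNReal.ofReal (r * Real.exp (-r)) = ENNReal.ofReal (n * (r ^ n * Real.exp (-r))) := by
        intro r hr
        have hr0 : 0 < r := hr
        rw [← ENNReal.ofReal_mul (by positivity), ← pow_pred hF r]
        congr 1
        ring
      rw [setLIntegral_congr_fun measurableSet_Ioi e3, ← ofReal_integral_eq_lintegral_ofReal
        ((gam_int n).const_mul _)]
      · rw [integral_const_mul, gam_val]
      · filter_upwards [ae_restrict_mem measurableSet_Ioi] with r hr
        have hr0 : 0 < r := hr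
        positivity
    rw [h5, ← pol_ofReal hF, ← ENNReal.ofReal_mul (hmu.alpha a b), ← ENNReal.ofReal_mul
      (by positivity)]
    congr 1
    ring
  have hα := hmu.alpha a b
  have hv := (pol_real_pos hF).le
  exact of_lint (f := fun y => I y * Real.exp (-F.h y))
    (hIm.mul (by have := h_meas hF; fun_prop)) (Eventually.of_forall fun y =>
      mul_nonneg (hI0 y) (Real.exp_pos _).le) (by positivity) hmain

/-- the mean of `-n log h` over the polar -/
theorem log_pol [Fintype V] (h2 : S_rad) (h3 : S_beta) (hF : Good F) :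
    ∫⁻ y in F.pol, ENNReal.ofReal (-(n * Real.log (F.h y))) = volume F.pol := by
  have hn : (0 : ℝ) < n := by exact_mod_cast hF.n_pos
  have hm : Measurable ((Iic (1 : ℝ)).indicator fun r => ENNReal.ofReal (-(n * Real.log r))) :=
    Measurable.indicator (by fun_prop) measurableSet_Iic
  have h4 := rad h2 hF (fun _ => 1) measurable_const (fun _ _ _ => rfl) _ hm
  simp only [mul_one, lintegral_const, Measure.restrict_apply MeasurableSet.univ, univ_inter,
    one_mul] at h4
  have hmp : MeasurableSet {y | F.h y ≤ 1} := meas_pol hF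
  have h5 : ∫⁻ y in F.pol, ENNReal.ofReal (-(n * Real.log (F.h y))) =
      ∫⁻ y, ((Iic (1 : ℝ)).indicator fun r => ENNReal.ofReal (-(n * Real.log r))) (F.h y) := by
    show ∫⁻ y in {y | F.h y ≤ 1}, _ = _
    rw [← lintegral_indicator hmp]
    refine lintegral_congr fun y => ?_
    by_cases h1 : F.h y ≤ 1
    · rw [Set.indicator_of_mem (show y ∈ {y | F.h y ≤ 1} from h1),
        Set.indicator_of_mem (show F.h y ∈ Iic 1 from h1)]
    · rw [Set.indicator_of_notMem (show y ∉ {y | F.h y ≤ 1} from h1),
        Set.indicator_of_notMem (show F.h y ∉ Iic 1 from h1)]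
  rw [h5, h4]
  have h6 : ∫⁻ r in Ioi (0 : ℝ), ENNReal.ofReal (n * r ^ (n - 1)) *
      ((Iic (1 : ℝ)).indicator fun r => ENNReal.ofReal (-(n * Real.log r))) r = 1 := by
    have e1 : ∀ r : ℝ, ENNReal.ofReal (n * r ^ (n - 1)) *
        ((Iic (1 : ℝ)).indicator fun r => ENNReal.ofReal (-(n * Real.log r))) r =
        ((Iic (1 : ℝ)).indicator fun r => ENNReal.ofReal (n * r ^ (n - 1)) *
          ENNReal.ofReal (-(n * Real.log r))) r := by
      intro r
      by_cases hr : r ∈ Iic (1 : ℝ)
      · rw [Set.indicator_of_mem hr, Set.indicator_of_mem hr]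
      · rw [Set.indicator_of_notMem hr, Set.indicator_of_notMem hr, mul_zero]
    simp only [e1]
    rw [lintegral_indicator measurableSet_Iic, Measure.restrict_restrict measurableSet_Iic]
    have e2 : Iic (1 : ℝ) ∩ Ioi 0 = Ioc 0 1 := by ext r; simp [and_comm]
    rw [e2]
    have e3 : ∀ r ∈ Ioc (0 : ℝ) 1, ENNReal.ofReal (n * r ^ (n - 1)) *
        ENNReal.ofReal (-(n * Real.log r)) =
        ENNReal.ofReal n * ENNReal.ofReal (n * r ^ (n - 1) * (1 - r) ^ 0 * -Real.log r) := by
      intro r hr
      have hr0 : 0 < r := hr.1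
      rw [← ENNReal.ofReal_mul (by positivity), ← ENNReal.ofReal_mul (by positivity)]
      congr 1
      ring
    rw [setLIntegral_congr_fun measurableSet_Ioc e3, lintegral_const_mul' _ _
      ENNReal.ofReal_ne_top, (h3 n 0 hF.n_pos).2.1, ← ENNReal.ofReal_mul hn.le,
      ← ENNReal.ofReal_one]
    congr 1
    have e4 : HH n = HH (n - 1) + 1 / n := by
      unfold HH
      obtain ⟨k, hk⟩ : ∃ k, n = k + 1 := ⟨n - 1, (Nat.sub_add_cancel hF.n_pos).symm⟩
      rw [hk, Nat.add_sub_cancel, Finset.sum_range_succ]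
      push_cast
      rfl
    rw [add_zero, e4]
    have : ((n.factorial : ℕ) : ℝ) ≠ 0 := by positivity
    simp
    field_simp
  rw [h6, one_mul]

/-- the mean of the certificate -/
theorem LQ_int [Fintype U] [Fintype V] (h2 : S_rad) (h3 : S_beta) (hF : Good F)
    {mu : (Fin n → ℝ) → U → ℝ} {LQ : (Fin n → ℝ) → ℝ} {Y : Set (Fin n → ℝ)} {qa : ℝ}
    (hQ : QC F mu LQ Y qa) :
    Integrable (fun y => LQ y * Real.exp (-F.h y)) ∧
    ∫ y, LQ y * Real.exp (-F.h y) ≤
      (qa - 1 - n * (HH (n - 1) - Real.eulerMascheroniConstant)) *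
        (n.factorial * volume.real F.pol) := by
  have hn : (0 : ℝ) < n := by exact_mod_cast hF.n_pos
  have hv := pol_real_pos hF
  have hhm := h_meas hF
  have hY0 : ∀ y ∈ Y, y ≠ 0 := by
    rintro y hy rfl
    have h4 := hQ.smul (Real.exp 1) (Real.exp_pos 1) 0 hy
    rw [smul_zero, Real.log_exp] at h4
    linarith
  set g : (Fin n → ℝ) → ℝ := Y.indicator fun y => LQ y + n * Real.log (F.h y) with hg
  have hgm : Measurable g :=
    Measurable.indicator (hQ.meas.add ((hhm.log).const_mul _)) hQ.measY
  have hg0 : ∀ y, 0 ≤ g y := by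
    intro y
    refine Set.indicator_nonneg (fun y hy => ?_) y
    have hp := h_pos hF (hY0 y hy)
    have h4 := hQ.smul (F.h y)⁻¹ (inv_pos.2 hp) y hy
    have h5 := hQ.nonneg ((F.h y)⁻¹ • y) (hQ.smulY _ (inv_pos.2 hp) y hy) (by
      rw [h_smul hF (inv_pos.2 hp), inv_mul_cancel₀ hp.ne'])
    rw [h4, Real.log_inv] at h5
    linarith
  have hgs : ∀ t : ℝ, 0 < t → ∀ y, g (t • y) = g y := by
    intro t ht y
    by_cases hy : y ∈ Y
    · have hty := hQ.smulY t ht y hy
      rw [hg, Set.indicator_of_mem hty, Set.indicator_of_mem hy, hQ.smul t ht y hy, h_smul hF ht,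
        Real.log_mul ht.ne' (h_pos hF (hY0 y hy)).ne']
      ring
    · have hty : t • y ∉ Y := by
        intro h
        apply hy
        have := hQ.smulY t⁻¹ (inv_pos.2 ht) _ h
        rwa [smul_smul, inv_mul_cancel₀ ht.ne', one_smul] at this
      rw [hg, Set.indicator_of_notMem hty, Set.indicator_of_notMem hy]
  have hYae : ∀ᵐ y, y ∈ Y := by
    rw [ae_iff]
    exact hQ.nullY
  -- the mean over the polar
  set X := ∫⁻ y in F.pol, ENNReal.ofReal (g y) with hX
  have hX1 : X + volume F.pol ≤ ENNReal.ofReal qa * volume F.pol := by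
    refine le_trans (le_of_eq ?_) hQ.mean
    rw [← log_pol h2 h3 hF, hX, ← lintegral_add_right _ (by fun_prop)]
    refine lintegral_congr_ae ?_
    filter_upwards [ae_restrict_of_ae hYae, ae_restrict_mem (meas_pol hF)] with y hy hy1
    have hp := h_pos hF (hY0 y hy)
    have hy1' : F.h y ≤ 1 := hy1
    have hl : Real.log (F.h y) ≤ 0 := Real.log_nonpos hp.le hy1'
    rw [← ENNReal.ofReal_add (hg0 y) (by nlinarith)]
    congr 1
    rw [hg, Set.indicator_of_mem hy]
    ring
  have hXtop : X ≠ ∞ := by
    intro h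
    rw [h, top_add, top_le_iff] at hX1
    exact ENNReal.mul_ne_top ENNReal.ofReal_ne_top (pol_ne_top hF) hX1
  have hX2 : X.toReal ≤ (qa - 1) * volume.real F.pol := by
    have h4 := (ENNReal.toReal_le_toReal (ENNReal.add_ne_top.2 ⟨hXtop, pol_ne_top hF⟩)
      (ENNReal.mul_ne_top ENNReal.ofReal_ne_top (pol_ne_top hF))).2 hX1
    rw [ENNReal.toReal_add hXtop (pol_ne_top hF), ENNReal.toReal_mul,
      ENNReal.toReal_ofReal hQ.qa_nonneg, ← measureReal_def] at h4
    linarith
  -- the integral against `exp (-h)`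
  have hmain : ∫⁻ y, ENNReal.ofReal (g y * Real.exp (-F.h y)) =
      ENNReal.ofReal (n.factorial * X.toReal) := by
    have hm : Measurable fun r : ℝ => ENNReal.ofReal (Real.exp (-r)) := by fun_prop
    have h4 := rad h2 hF (fun y => ENNReal.ofReal (g y)) hgm.ennreal_ofReal
      (fun t ht y => by rw [hgs t ht y]) (fun r => ENNReal.ofReal (Real.exp (-r))) hm
    have h5 : ∀ y, ENNReal.ofReal (Real.exp (-F.h y)) * ENNReal.ofReal (g y) =
        ENNReal.ofReal (g y * Real.exp (-F.h y)) := by
      intro y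
      rw [← ENNReal.ofReal_mul (Real.exp_pos _).le, mul_comm]
    simp only [h5] at h4
    rw [h4, ← hX]
    have h6 : ∫⁻ r in Ioi (0 : ℝ), ENNReal.ofReal (n * r ^ (n - 1)) *
        ENNReal.ofReal (Real.exp (-r)) = ENNReal.ofReal n.factorial := by
      have e3 : ∀ r ∈ Ioi (0 : ℝ), ENNReal.ofReal (n * r ^ (n - 1)) *
          ENNReal.ofReal (Real.exp (-r)) =
          ENNReal.ofReal (n * (r ^ (n - 1) * Real.exp (-r))) := by
        intro r hr
        have hr0 : 0 < r := hr
        rw [← ENNReal.ofReal_mul (by positivity)]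
        congr 1
        ring
      have hi : IntegrableOn (fun r : ℝ => (n : ℝ) * (r ^ (n - 1) * Real.exp (-r))) (Ioi 0) :=
        (gam_int (n - 1)).const_mul (n : ℝ)
      rw [setLIntegral_congr_fun measurableSet_Ioi e3, ← ofReal_integral_eq_lintegral_ofReal hi]
      · rw [integral_const_mul, gam_val, fact_pred hF]
      · filter_upwards [ae_restrict_mem measurableSet_Ioi] with r hr
        have hr0 : 0 < r := hr
        positivity
    rw [h6, ENNReal.ofReal_mul (by positivity), ENNReal.ofReal_toReal hXtop]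
  obtain ⟨hgi, hgv⟩ := of_lint (f := fun y => g y * Real.exp (-F.h y))
    (hgm.mul (by fun_prop)) (Eventually.of_forall fun y =>
      mul_nonneg (hg0 y) (Real.exp_pos _).le)
    (mul_nonneg (Nat.cast_nonneg _) ENNReal.toReal_nonneg) hmain
  obtain ⟨hli, hlv⟩ := log_exp_int h2 hF
  have hae : (fun y => LQ y * Real.exp (-F.h y)) =ᵐ[volume]
      fun y => g y * Real.exp (-F.h y) - n * (Real.log (F.h y) * Real.exp (-F.h y)) := by
    filter_upwards [hYae] with y hy
    rw [hg, Set.indicator_of_mem hy]
    ring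
  constructor
  · exact (hgi.sub (hli.const_mul _)).congr hae.symm
  · rw [integral_congr_ae hae, integral_sub hgi (hli.const_mul _), integral_const_mul, hgv, hlv]
    have h7 : (n.factorial : ℝ) * X.toReal ≤ n.factorial * ((qa - 1) * volume.real F.pol) :=
      mul_le_mul_of_nonneg_left hX2 (Nat.cast_nonneg _)
    nlinarith

end frames

/-- LP931-B4 -/
theorem b4 (h2 : S_rad) (h3 : S_beta) : S_b4 := by
  intro n U V _ _ F α mu LQ Y qa hF hmu hQ
  exact ⟨(exp_int h2 hF).1, (exp_int h2 hF).2, h_exp_int h2 hF, fun a b => mu_int h2 hF hmu a b,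
    (LQ_int h2 h3 hF hQ).1, (LQ_int h2 h3 hF hQ).2⟩

end Pool.Agent.TH365.LP931
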