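import Pool.Agent.TH931.LP.StmB
import Pool.Agent.TH365.LP931.Base
import Pool.Agent.TH365.LP931.B4

/-!
# LP931-B5 (job 2429): most directions are good
-/

set_option autoImplicit false
set_option linter.unusedVariables false

open MeasureTheory Set Filter Topology
open scoped ENNReal Matrix

namespace Pool.Agent.TH365.LP931

open Pool.Agent.TH931.LP

section b5

variable {n : ℕ} {U V : Type} {F : Fr n U V}

theorem N_eq_sum [Fintype V] (hF : Good F) {α : U → V → ℝ} {nu : (Fin n → ℝ) → V → ℝ}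
    (hnu : Ker F.dual (fun b a => α a b) nu) (x : Fin n → ℝ) : ∑ b, nu x b = F.N x := by
  have h1 : ∑ b, nu x b • F.v b = x := hnu.bary x
  have h2 : F.N x = F.u (F.ft x) ⬝ᵥ x := (hF.half.eq x).symm
  have h3 : ∀ w : Fin n → ℝ, w ⬝ᵥ x = ∑ b, nu x b * (w ⬝ᵥ F.v b) := by
    intro w
    have h4 : w ⬝ᵥ x = w ⬝ᵥ (∑ b, nu x b • F.v b) := by rw [h1]
    rw [h4, dotProduct_sum]
    exact Finset.sum_congr rfl fun b _ => by rw [dotProduct_smul, smul_eq_mul]
  rw [h2, h3]
  refine Finset.sum_congr rfl fun b _ => ?_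
  by_cases hb : nu x b = 0
  · rw [hb, zero_mul]
  · have h4 : F.v b ⬝ᵥ F.u (F.ft x) = 1 := hnu.supp x b hb
    rw [dotProduct_comm, h4, mul_one]

/-- the quantitative gap -/
theorem gap [Fintype V] (hF : Good F) {α : U → V → ℝ} {nu : (Fin n → ℝ) → V → ℝ}
    (hnu : Ker F.dual (fun b a => α a b) nu) {R : ℝ} (hR0 : 0 < R)
    (hR : ∀ b, ‖F.v b‖ ≤ R) {y : Fin n → ℝ} {δ : ℝ} (hδ0 : 0 ≤ δ) (h1 : δ ≤ F.h y)
    (h2 : ∀ b, b ≠ F.vt y → δ ≤ F.h y - F.v b ⬝ᵥ y) {x : Fin n → ℝ} (hx : F.N x ≤ 1) :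
    ‖x - F.v (F.vt y)‖ / (2 * R) * δ ≤ F.h y - x ⬝ᵥ y := by
  classical
  have hsum : ∑ b, nu x b = F.N x := N_eq_sum hF hnu x
  have hx1 : ∑ b, nu x b • F.v b = x := hnu.bary x
  have hnn : ∀ b, 0 ≤ nu x b := fun b => hnu.nonneg x b
  set b0 := F.vt y with hb0
  set s : ℝ := ∑ b ∈ Finset.univ.erase b0, nu x b with hs
  have hs0 : 0 ≤ s := Finset.sum_nonneg fun b _ => hnn b
  have hs1 : s + nu x b0 = F.N x := by
    rw [← hsum, hs, Finset.sum_erase_add _ _ (Finset.mem_univ b0)]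
  have ht0 : 0 ≤ 1 - F.N x := by linarith
  -- the lower bound
  have hlow : (s + (1 - F.N x)) * δ ≤ F.h y - x ⬝ᵥ y := by
    have e1 : x ⬝ᵥ y = ∑ b, nu x b * (F.v b ⬝ᵥ y) := by
      conv_lhs => rw [← hx1]
      rw [sum_dotProduct]
      exact Finset.sum_congr rfl fun b _ => by rw [smul_dotProduct, smul_eq_mul]
    have e2 : F.h y - x ⬝ᵥ y = ∑ b, nu x b * (F.h y - F.v b ⬝ᵥ y) + (1 - F.N x) * F.h y := by
      rw [e1]
      simp only [mul_sub, Finset.sum_sub_distrib, ← Finset.sum_mul, hsum]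
      ring
    have e3 : s * δ ≤ ∑ b, nu x b * (F.h y - F.v b ⬝ᵥ y) := by
      rw [← Finset.sum_erase_add _ _ (Finset.mem_univ b0), hb0, h_eq hF, sub_self, mul_zero,
        add_zero, hs, Finset.sum_mul]
      refine Finset.sum_le_sum fun b hb => ?_
      exact mul_le_mul_of_nonneg_left (h2 b (Finset.ne_of_mem_erase hb)) (hnn b)
    rw [e2]
    have e4 : (1 - F.N x) * δ ≤ (1 - F.N x) * F.h y := mul_le_mul_of_nonneg_left h1 ht0
    linarith
  -- the distance
  have hdist : ‖x - F.v b0‖ ≤ (s + (1 - F.N x)) * (2 * R) := by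
    have e1 : x - F.v b0 = ∑ b ∈ Finset.univ.erase b0, nu x b • (F.v b - F.v b0) -
        (1 - F.N x) • F.v b0 := by
      have e2 : ∑ b ∈ Finset.univ.erase b0, nu x b • (F.v b - F.v b0) =
          (∑ b ∈ Finset.univ.erase b0, nu x b • F.v b) - s • F.v b0 := by
        simp only [smul_sub, Finset.sum_sub_distrib, ← Finset.sum_smul, hs]
      have e3 : ∑ b ∈ Finset.univ.erase b0, nu x b • F.v b = x - nu x b0 • F.v b0 := by
        rw [eq_sub_iff_add_eq, Finset.sum_erase_add _ _ (Finset.mem_univ b0), hx1]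
      rw [e2, e3]
      have e4 : nu x b0 = F.N x - s := by linarith
      rw [e4]
      module
    rw [e1]
    refine (norm_sub_le _ _).trans ?_
    have e5 : ‖∑ b ∈ Finset.univ.erase b0, nu x b • (F.v b - F.v b0)‖ ≤ s * (2 * R) := by
      refine (norm_sum_le _ _).trans ?_
      rw [hs, Finset.sum_mul]
      refine Finset.sum_le_sum fun b _ => ?_
      rw [norm_smul, Real.norm_of_nonneg (hnn b)]
      refine mul_le_mul_of_nonneg_left ?_ (hnn b)
      have := hR b
      have := hR b0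
      exact (norm_sub_le _ _).trans (by linarith)
    have e6 : ‖(1 - F.N x) • F.v b0‖ ≤ (1 - F.N x) * (2 * R) := by
      rw [norm_smul, Real.norm_of_nonneg ht0]
      refine mul_le_mul_of_nonneg_left ?_ ht0
      have := hR b0
      linarith
    linarith
  have h2R : 0 < 2 * R := by linarith
  have hd2 : ‖x - F.v b0‖ / (2 * R) ≤ s + (1 - F.N x) := (div_le_iff₀ h2R).2 hdist
  exact (mul_le_mul_of_nonneg_right hd2 hδ0).trans hlow

theorem v_inj (hF : Good F) {b b' : V} (h : b ≠ b') : F.v b ≠ F.v b' := by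
  obtain ⟨a, h1, h2⟩ := hF.dhalf.strict b b' h
  intro he
  have h1' : F.v b ⬝ᵥ F.u a = 1 := h1
  have h2' : F.v b' ⬝ᵥ F.u a < 1 := h2
  rw [he] at h1'
  linarith

/-- hyperplanes are null sets -/
theorem null_hyp {w : Fin n → ℝ} (hw : w ≠ 0) : volume {y : Fin n → ℝ | w ⬝ᵥ y = 0} = 0 := by
  let L : (Fin n → ℝ) →ₗ[ℝ] ℝ :=
    { toFun := fun y => w ⬝ᵥ y
      map_add' := fun x y => dotProduct_add _ _ _
      map_smul' := fun c y => by rw [dotProduct_smul]; rfl }
  have h : {y : Fin n → ℝ | w ⬝ᵥ y = 0} = (LinearMap.ker L : Set (Fin n → ℝ)) := by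
    ext y
    rfl
  rw [h]
  apply Measure.addHaar_submodule
  intro ht
  have h1 : w ∈ LinearMap.ker L := by rw [ht]; trivial
  have h2 : w ⬝ᵥ w = 0 := h1
  exact hw (dotProduct_self_eq_zero.1 h2)

end b5

/-- LP931-B5 -/
theorem b5 (h2 : S_rad) : S_b5 := by
  classical
  intro n U V _ _ F α nu hF hnu r η hr hη
  have hhm := h_meas hF
  obtain ⟨R, hR0, hR⟩ : ∃ R : ℝ, 0 < R ∧ ∀ b, ‖F.v b‖ ≤ R := by
    refine ⟨(∑ b, ‖F.v b‖) + 1, by positivity, fun b => ?_⟩
    have := Finset.single_le_sum (f := fun b => ‖F.v b‖) (fun b _ => norm_nonneg _)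
      (Finset.mem_univ b)
    linarith
  -- the sets
  set S : ℕ → Set (Fin n → ℝ) := fun k => {y | F.h y ≤ k + 1 ∧
    (2 * R / r) / (k + 1) ≤ F.h y ∧ ∀ b, b ≠ F.vt y → (2 * R / r) / (k + 1) ≤ F.h y - F.v b ⬝ᵥ y}
    with hS
  have hSm : ∀ k, MeasurableSet (S k) := by
    intro k
    have e : S k = ({y | F.h y ≤ k + 1} ∩ {y | (2 * R / r) / (k + 1) ≤ F.h y}) ∩
        ⋂ b, ({y | F.vt y = b} ∪ {y | (2 * R / r) / (k + 1) ≤ F.h y - F.v b ⬝ᵥ y}) := by
      ext y
      simp only [hS, Set.mem_ofPred_eq, Set.mem_inter_iff, Set.mem_iInter, Set.mem_union]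
      constructor
      · rintro ⟨h1, h2, h3⟩
        refine ⟨⟨h1, h2⟩, fun b => ?_⟩
        by_cases hb : F.vt y = b
        · exact Or.inl hb
        · exact Or.inr (h3 b (Ne.symm hb))
      · rintro ⟨⟨h1, h2⟩, h3⟩
        refine ⟨h1, h2, fun b hb => ?_⟩
        rcases h3 b with h | h
        · exact absurd h.symm hb
        · exact h
    rw [e]
    refine ((measurableSet_le hhm measurable_const).inter
      (measurableSet_le measurable_const hhm)).inter (MeasurableSet.iInter fun b =>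
        (meas_vt hF b).union (measurableSet_le measurable_const (hhm.sub ?_)))
    have : Continuous fun y : Fin n → ℝ => F.v b ⬝ᵥ y :=
      Continuous.dotProduct continuous_const continuous_id
    exact this.measurable
  have hmono : Monotone S := by
    intro k l hkl y hy
    obtain ⟨h1, h3, h4⟩ := hy
    have hkl' : (k : ℝ) + 1 ≤ l + 1 := by exact_mod_cast Nat.succ_le_succ hkl
    have h5 : (2 * R / r) / ((l : ℝ) + 1) ≤ (2 * R / r) / (k + 1) := by
      apply div_le_div_of_nonneg_left (by positivity) (by positivity) hkl'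
    exact ⟨h1.trans hkl', h5.trans h3, fun b hb => h5.trans (h4 b hb)⟩
  -- the union is conull
  have hnull : volume (⋂ k, (S k)ᶜ) = 0 := by
    have hn0 : volume ({(0 : Fin n → ℝ)} ∪ ⋃ p : V × V, {y : Fin n → ℝ | p.1 ≠ p.2 ∧
        (F.v p.1 - F.v p.2) ⬝ᵥ y = 0}) = 0 := by
      rw [measure_union_null_iff]
      constructor
      · have : Nonempty (Fin n) := ⟨⟨0, hF.n_pos⟩⟩
        exact measure_singleton _
      · rw [measure_iUnion_null_iff]
        intro p
        by_cases hp : p.1 = p.2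
        · refine measure_mono_null (t := ∅) ?_ measure_empty
          intro y hy
          exact absurd hp hy.1
        · refine measure_mono_null (t := {y : Fin n → ℝ | (F.v p.1 - F.v p.2) ⬝ᵥ y = 0}) ?_
            (null_hyp (sub_ne_zero.2 (v_inj hF hp)))
          intro y hy
          exact hy.2
    refine measure_mono_null ?_ hn0
    intro y hy
    by_contra hcon
    rw [Set.mem_union, not_or, Set.mem_iUnion, not_exists] at hcon
    obtain ⟨hy0, hyb⟩ := hcon
    have hy0' : y ≠ 0 := hy0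
    have hp := h_pos hF hy0'
    have hgap : ∀ b, b ≠ F.vt y → 0 < F.h y - F.v b ⬝ᵥ y := by
      intro b hb
      have h3 := h_le hF b y
      have h4 : F.v b ⬝ᵥ y ≠ F.h y := by
        intro h
        apply hyb (b, F.vt y)
        refine ⟨hb, ?_⟩
        rw [sub_dotProduct, h, h_eq hF, sub_self]
      have := lt_of_le_of_ne h3 h4
      linarith
    -- choose k large
    have hev1 : ∀ᶠ k : ℕ in atTop, F.h y ≤ k + 1 := by
      have : Tendsto (fun k : ℕ => (k : ℝ) + 1) atTop atTop :=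
        tendsto_atTop_add_const_right _ _ tendsto_natCast_atTop_atTop
      exact this.eventually_ge_atTop _
    have htend : Tendsto (fun k : ℕ => (2 * R / r) / ((k : ℝ) + 1)) atTop (𝓝 0) := by
      apply Tendsto.div_atTop tendsto_const_nhds
      exact tendsto_atTop_add_const_right _ _ tendsto_natCast_atTop_atTop
    have hev2 : ∀ᶠ k : ℕ in atTop, (2 * R / r) / ((k : ℝ) + 1) ≤ F.h y :=
      (htend.eventually_lt_const hp).mono fun k hk => hk.le
    have hev3 : ∀ᶠ k : ℕ in atTop, ∀ b, b ≠ F.vt y →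
        (2 * R / r) / ((k : ℝ) + 1) ≤ F.h y - F.v b ⬝ᵥ y := by
      rw [eventually_all]
      intro b
      by_cases hb : b = F.vt y
      · exact Eventually.of_forall fun k h => absurd hb h
      · exact (htend.eventually_lt_const (hgap b hb)).mono fun k hk _ => hk.le
    obtain ⟨k, h3, h4, h5⟩ := (hev1.and (hev2.and hev3)).exists
    exact (Set.mem_iInter.1 hy k) ⟨h3, h4, h5⟩
  -- integrability
  have hint : Integrable (fun y => (1 + F.h y) * Real.exp (-F.h y)) := by
    have := (exp_int h2 hF).1.add (h_exp_int h2 hF)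
    refine this.congr (Eventually.of_forall fun y => ?_)
    show Real.exp (-F.h y) + F.h y * Real.exp (-F.h y) = _
    ring
  have hlim : Tendsto (fun k => ∫ y in (S k)ᶜ, (1 + F.h y) * Real.exp (-F.h y)) atTop
      (𝓝 (∫ y in ⋂ k, (S k)ᶜ, (1 + F.h y) * Real.exp (-F.h y))) := by
    apply tendsto_setIntegral_of_antitone
    · exact fun k => (hSm k).compl
    · intro k l hkl
      exact Set.compl_subset_compl.2 (hmono hkl)
    · exact ⟨0, hint.integrableOn⟩
  have hz : ∫ y in ⋂ k, (S k)ᶜ, (1 + F.h y) * Real.exp (-F.h y) = 0 :=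
    setIntegral_measure_zero _ hnull
  rw [hz] at hlim
  obtain ⟨k, hk⟩ := (hlim.eventually_lt_const hη).exists
  refine ⟨1 / (k + 1), by positivity, S k, hSm k, ?_, hk.le⟩
  intro y hy
  obtain ⟨h3, h4, h5⟩ := hy
  refine ⟨by rw [one_div_one_div]; exact h3, ?_⟩
  intro x hx hxr
  have hg := gap hF hnu hR0 hR (by positivity) h4 h5 (x := x) hx
  have h6 : 1 / ((k : ℝ) + 1) ≤ ‖x - F.v (F.vt y)‖ / (2 * R) * ((2 * R / r) / (k + 1)) := by
    have h7 : ‖x - F.v (F.vt y)‖ / (2 * R) * ((2 * R / r) / (k + 1)) =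
        (‖x - F.v (F.vt y)‖ / r) * (1 / (k + 1)) := by
      field_simp
    rw [h7]
    have h8 : 1 ≤ ‖x - F.v (F.vt y)‖ / r := (one_le_div hr).2 hxr
    have h9 : (0 : ℝ) ≤ 1 / (k + 1) := by positivity
    nlinarith
  linarith

end Pool.Agent.TH365.LP931
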